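import Pool.Agent.W225.TD2.Stm

set_option autoImplicit false

open Finset

namespace Pool.Agent.W197.TD2A

open Pool.Agent.W225.TD2

theorem aux (d x y d' x' y' : ℕ) (hd : d ≤ 1) (hx : x ≤ 1) (hy : y ≤ 1) (hd' : d' ≤ 1)
    (hx' : x' ≤ 1) (hy' : y' ≤ 1) (h1 : d * d' = 0) (h2 : d * x = 0) (h2' : d' * x' = 0)
    (h3 : d * y' = 0) (h4' : x' * y' = 0) (h5 : y * x' = 0) :
    (d' + x' + y') + d * (x + y) ≤ 1 + d' * (x' + y') := by
  interval_cases d <;> interval_cases d' <;> interval_cases x <;> interval_cases y <;>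
    interval_cases x' <;> interval_cases y' <;> simp_all

theorem alpha : S_ALPHA := by
  intro n d x y hd hx hy hdd hdx hdy hxy hyx
  have key : ∀ i : Fin (n + 4), (d (i + 1) + x (i + 1) + y (i + 1)) + d i * (x i + y i)
      ≤ 1 + d (i + 1) * (x (i + 1) + y (i + 1)) := fun i =>
    aux (d i) (x i) (y i) (d (i + 1)) (x (i + 1)) (y (i + 1)) (hd i) (hx i) (hy i) (hd _) (hx _)
      (hy _) (hdd i) (hdx i) (hdx _) (hdy i) (hxy _) (hyx i)
  have hs : ∀ f : Fin (n + 4) → ℕ, ∑ i, f (i + 1) = ∑ i, f i := fun f =>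
    Equiv.sum_comp (Equiv.addRight (1 : Fin (n + 4))) f
  have h : ∑ i, ((d (i + 1) + x (i + 1) + y (i + 1)) + d i * (x i + y i))
      ≤ ∑ i, (1 + d (i + 1) * (x (i + 1) + y (i + 1))) := Finset.sum_le_sum (fun i _ => key i)
  have e1 : ∑ i, ((d (i + 1) + x (i + 1) + y (i + 1)) + d i * (x i + y i))
      = ∑ i, (d i + x i + y i) + ∑ i, d i * (x i + y i) := by
    rw [← hs (fun i => d i + x i + y i), ← Finset.sum_add_distrib]
  have e2 : ∑ i, (1 + d (i + 1) * (x (i + 1) + y (i + 1)))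
      = (n + 4) + ∑ i, d i * (x i + y i) := by
    rw [Finset.sum_add_distrib, hs (fun i => d i * (x i + y i))]
    simp
  omega

end Pool.Agent.W197.TD2A
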