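import Pool.Agent.H382P.PosProp
import Pool.Agent.H297R2.LG.Final

/-! Gaps of the zeta zeros in every short interval: tiling by the windows of the local theorems. -/

open Complex Filter Topology Set MeasureTheory

namespace W197

open SG (dd ord NZ)
open SP (RHs)

/-- tiling of `[T, T + H]` by windows of the local theorem -/
theorem tile (κ K ε T0 : ℝ) (hκ : 0 < κ) (hκ1 : κ < 1 / 2) (hK : 1 ≤ K) (hε : 0 < ε)
    (hT0 : 10 ≤ T0) (Q : ℝ → ℕ → Prop)
    (hloc : ∀ T : ℝ, T0 ≤ T → ∀ t0 : ℝ, 11 / 10 * T ≤ t0 → t0 ≤ 19 / 10 * T →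
      ε * dd κ T * Real.log T ≤ ({n : ℕ | 1 ≤ n ∧ |ord n - t0| ≤ K * dd κ T ∧ Q T n}.ncard : ℝ)) :
    ∃ ε' T1 : ℝ, 0 < ε' ∧ 100 ≤ T1 ∧ ∀ T : ℝ, T1 ≤ T → ∀ H : ℝ, T ^ (1 - κ / 4) ≤ H → H ≤ T / 2 →
      ε' * (H * Real.log T) ≤
        ({n : ℕ | 1 ≤ n ∧ T ≤ ord n ∧ ord n ≤ T + H ∧ Q (5 / 6 * T) n}.ncard : ℝ) := by
  have hlim : Tendsto (fun T : ℝ => T ^ (κ / 4)) atTop atTop := tendsto_rpow_atTop (by linarith)
  obtain ⟨T1, hT1⟩ := (tendsto_atTop.mp hlim (100 * K)).exists_forall_of_atTop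
  refine ⟨ε / (12 * K), max (max (2 * T0) T1) 1000, by positivity,
    le_trans (by norm_num) (le_max_right _ _), fun T hT H hH1 hH2 => ?_⟩
  have hTT0 : 2 * T0 ≤ T := ((le_max_left _ _).trans (le_max_left _ _)).trans hT
  have hTT1 : T1 ≤ T := ((le_max_right _ _).trans (le_max_left _ _)).trans hT
  have hT1000 : 1000 ≤ T := (le_max_right _ _).trans hT
  have hTpos : 0 < T := by linarith
  set T' : ℝ := 5 / 6 * T with hT'
  have hT'pos : 0 < T' := by rw [hT']; linarith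
  have hT'0 : T0 ≤ T' := by rw [hT']; linarith
  set Δ : ℝ := dd κ T' with hΔ
  have hΔ0 : 0 < Δ := by rw [hΔ]; unfold dd; positivity
  have hlogT' : Real.log T / 2 ≤ Real.log T' := by
    have h1 : T ≤ T' ^ 2 := by rw [hT']; nlinarith
    have h2 := Real.log_le_log hTpos h1
    rw [Real.log_pow] at h2
    push_cast at h2
    linarith
  have hlogT : 0 < Real.log T := Real.log_pos (by linarith)
  -- `100 K Δ ≤ H`
  have hKΔ : 100 * (K * Δ) ≤ H := by
    have h1 := hT1 T hTT1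
    have h2 : T ^ (κ / 4) * T ^ (1 - κ / 2) = T ^ (1 - κ / 4) := by
      rw [← Real.rpow_add hTpos]
      congr 1
      ring
    have h3 : Δ ≤ T ^ (1 - κ / 2) := by
      rw [hΔ]
      unfold dd
      apply Real.rpow_le_rpow hT'pos.le
      · rw [hT']; linarith
      · linarith
    have h4 : 0 ≤ T ^ (1 - κ / 2) := by positivity
    calc 100 * (K * Δ) = (100 * K) * Δ := by ring
      _ ≤ T ^ (κ / 4) * T ^ (1 - κ / 2) := mul_le_mul h1 h3 hΔ0.le (by positivity)
      _ = T ^ (1 - κ / 4) := h2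
      _ ≤ H := hH1
  set R : ℝ := K * Δ with hR
  have hR0 : 0 < R := by positivity
  have hHpos : 0 < H := by linarith
  set M : ℕ := ⌊H / (3 * R)⌋₊ with hM
  have hM1 : (M : ℝ) ≤ H / (3 * R) := Nat.floor_le (by positivity)
  have hM2 : H / (3 * R) < M + 1 := Nat.lt_floor_add_one _
  have hM3 : H / (6 * R) ≤ M := by
    have h1 : H / (3 * R) = 2 * (H / (6 * R)) := by field_simp; ring
    have h2 : 1 ≤ H / (6 * R) := by
      rw [le_div_iff₀ (by positivity)]
      linarith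
    rw [h1] at hM2
    linarith
  set S : Set ℕ := {n : ℕ | 1 ≤ n ∧ T ≤ ord n ∧ ord n ≤ T + H ∧ Q T' n} with hS
  have hSfin : S.Finite := by
    apply SP.PosProp.fin_ord (T + H)
    intro n hn
    exact ⟨hn.1, hn.2.2.1⟩
  set t : ℕ → ℝ := fun i => T + (3 * i + 3 / 2) * R with ht
  set W : ℕ → Set ℕ := fun i => {n : ℕ | 1 ≤ n ∧ |ord n - t i| ≤ K * dd κ T' ∧ Q T' n} with hW
  have hti : ∀ i < M, T + R ≤ t i ∧ t i + R ≤ T + H := by
    intro i hi
    have hiM : (i : ℝ) + 1 ≤ M := by exact_mod_cast hi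
    have h2 : (i : ℝ) + 1 ≤ H / (3 * R) := hiM.trans hM1
    rw [le_div_iff₀ (by positivity)] at h2
    have h3 : 0 ≤ (i : ℝ) * R := by positivity
    constructor
    · simp only [ht]; nlinarith
    · simp only [ht]; nlinarith
  have hsub : ∀ i < M, W i ⊆ S := by
    intro i hi n hn
    obtain ⟨h1, h2, h3⟩ := hn
    obtain ⟨h4, h5⟩ := hti i hi
    rw [abs_le] at h2
    rw [← hΔ, ← hR] at h2
    exact ⟨h1, by linarith, by linarith, h3⟩
  have hdisj : ∀ i < M, ∀ j < M, i ≠ j → Disjoint (W i) (W j) := by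
    intro i _ j _ hij
    rw [Set.disjoint_left]
    intro n hn hn'
    have h1 := abs_le.mp hn.2.1
    have h2 := abs_le.mp hn'.2.1
    rw [← hΔ, ← hR] at h1 h2
    simp only [ht] at h1 h2
    rcases Nat.lt_or_gt_of_ne hij with h | h
    · have h3 : (i : ℝ) + 1 ≤ j := by exact_mod_cast h
      have h4 : R * ((i : ℝ) + 1) ≤ R * j := mul_le_mul_of_nonneg_left h3 hR0.le
      nlinarith
    · have h3 : (j : ℝ) + 1 ≤ i := by exact_mod_cast h
      have h4 : R * ((j : ℝ) + 1) ≤ R * i := mul_le_mul_of_nonneg_left h3 hR0.le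
      nlinarith
  have hcount : ∀ i < M, ε * Δ * Real.log T' ≤ ((W i).ncard : ℝ) := by
    intro i hi
    obtain ⟨h4, h5⟩ := hti i hi
    apply hloc T' hT'0 (t i)
    · rw [hT']; linarith
    · rw [hT']; linarith
  have hfinal := SP.PosProp.card_windows hSfin M W hsub hdisj _ hcount
  refine le_trans ?_ hfinal
  have h50 : 0 ≤ Real.log T' := by linarith
  have h5 : 0 ≤ ε * Δ * Real.log T' := by positivity
  calc ε / (12 * K) * (H * Real.log T) = H / (6 * R) * (ε * Δ * (Real.log T / 2)) := by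
        rw [hR]
        field_simp
        ring
    _ ≤ H / (6 * R) * (ε * Δ * Real.log T') := by gcongr
    _ ≤ M * (ε * Δ * Real.log T') := mul_le_mul_of_nonneg_right hM3 h5

/-- the normalised gap -/
noncomputable def del (n : ℕ) : ℝ :=
  (ord (n + 1) * Real.log (ord (n + 1)) - ord n * Real.log (ord n)) / (2 * Real.pi)

theorem xlogx_up {x y : ℝ} (hx : 0 < x) (hxy : x ≤ y) :
    y * Real.log y - x * Real.log x ≤ (y - x) * (1 + Real.log y) := by
  have hy : 0 < y := by linarith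
  have h1 : Real.log (y / x) ≤ y / x - 1 := Real.log_le_sub_one_of_pos (by positivity)
  rw [Real.log_div hy.ne' hx.ne'] at h1
  have h2 : x * (Real.log y - Real.log x) ≤ x * (y / x - 1) := mul_le_mul_of_nonneg_left h1 hx.le
  have h3 : x * (y / x - 1) = y - x := by field_simp
  nlinarith

theorem xlogx_low {x y : ℝ} (hx : 0 < x) (hxy : x ≤ y) :
    (y - x) * Real.log x ≤ y * Real.log y - x * Real.log x := by
  have hy : 0 < y := by linarith
  have h1 : Real.log x ≤ Real.log y := Real.log_le_log hx hxy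
  nlinarith

/-- a positive proportion of small gaps in every short interval -/
theorem small_short (hRH : RHs) (β : ℝ) (hβ : 1 / 2 < β) :
    ∃ θ ε T1 : ℝ, θ < 1 ∧ 0 < ε ∧ ∀ T : ℝ, T1 ≤ T → ∀ H : ℝ, T ^ θ ≤ H → H ≤ T / 2 →
      ε * (H * Real.log T) ≤
        ({n : ℕ | 1 ≤ n ∧ T ≤ ord n ∧ ord n ≤ T + H ∧ del n < β}.ncard : ℝ) := by
  set c1 : ℝ := (1 / 2 + min β 1) / 2 with hc1d
  have hm1 : 1 / 2 < min β 1 := lt_min hβ (by norm_num)
  have hm2 : min β 1 ≤ β := min_le_left _ _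
  have hm3 : min β 1 ≤ 1 := min_le_right _ _
  have hc1 : 1 / 2 < c1 := by rw [hc1d]; linarith
  have hc1' : c1 < 1 := by rw [hc1d]; linarith
  have hc1β : c1 < β := by rw [hc1d]; linarith
  obtain ⟨ε, κ, K, T0, hε, hκ, hκ2, hK, hT0, hloc⟩ := SP.local_many hRH c1 hc1 hc1'
  obtain ⟨ε', T1, hε', hT1, h⟩ := tile κ K ε T0 hκ hκ2 hK hε hT0
    (fun T n => ord (n + 1) - ord n < 2 * Real.pi * c1 / Real.log T) hloc
  -- `c1 (1 + log (2T)) < β log (5T/6)` for large `T`
  have hev : ∀ᶠ T : ℝ in atTop, c1 * (1 + Real.log (2 * T)) < β * Real.log (5 / 6 * T) := by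
    have h1 : Tendsto (fun T : ℝ => (β - c1) * Real.log T) atTop atTop :=
      Real.tendsto_log_atTop.const_mul_atTop (by linarith)
    filter_upwards [tendsto_atTop.mp h1 (c1 * (1 + Real.log 2) - β * Real.log (5 / 6) + 1),
      eventually_gt_atTop 0] with T hT hT0
    rw [Real.log_mul (by norm_num) hT0.ne', Real.log_mul (by norm_num) hT0.ne']
    nlinarith
  obtain ⟨T2, hT2⟩ := hev.exists_forall_of_atTop
  refine ⟨1 - κ / 4, ε', max T1 T2, by linarith, hε', fun T hT H hH1 hH2 => ?_⟩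
  have hTT1 : T1 ≤ T := (le_max_left _ _).trans hT
  have hT100 : 100 ≤ T := hT1.trans hTT1
  refine (h T hTT1 H hH1 hH2).trans ?_
  have hsub : {n : ℕ | 1 ≤ n ∧ T ≤ ord n ∧ ord n ≤ T + H ∧
      ord (n + 1) - ord n < 2 * Real.pi * c1 / Real.log (5 / 6 * T)} ⊆
      {n : ℕ | 1 ≤ n ∧ T ≤ ord n ∧ ord n ≤ T + H ∧ del n < β} := by
    rintro n ⟨h1, h2, h3, h4⟩
    refine ⟨h1, h2, h3, ?_⟩
    have hpi := Real.pi_pos
    have hpi4 := Real.pi_lt_four
    have hlog : 2 ≤ Real.log (5 / 6 * T) := by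
      rw [Real.le_log_iff_exp_le (by linarith)]
      have h5 : Real.exp 2 = Real.exp 1 ^ 2 := by rw [← Real.exp_nat_mul]; norm_num
      rw [h5]
      have h6 := Real.exp_one_lt_d9
      have h7 := Real.exp_pos 1
      nlinarith
    have hx0 : 0 < ord n := SG.ord_pos h1
    have hxy : ord n ≤ ord (n + 1) := SG.ord_mono h1 (Nat.le_succ n)
    have hg : ord (n + 1) - ord n ≤ 8 := by
      refine h4.le.trans ?_
      rw [div_le_iff₀ (by linarith)]
      nlinarith
    have hy2 : ord (n + 1) ≤ 2 * T := by linarith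
    have hlogy : Real.log (ord (n + 1)) ≤ Real.log (2 * T) :=
      Real.log_le_log (by linarith) hy2
    have hlog2 : 0 ≤ 1 + Real.log (2 * T) := by
      have := Real.log_nonneg (by linarith : 1 ≤ 2 * T)
      linarith
    have h5 := xlogx_up hx0 hxy
    have h6 : (ord (n + 1) - ord n) * (1 + Real.log (ord (n + 1))) ≤
        (ord (n + 1) - ord n) * (1 + Real.log (2 * T)) :=
      mul_le_mul_of_nonneg_left (by linarith) (by linarith)
    have h7 : (ord (n + 1) - ord n) * (1 + Real.log (2 * T)) ≤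
        2 * Real.pi * c1 / Real.log (5 / 6 * T) * (1 + Real.log (2 * T)) :=
      mul_le_mul_of_nonneg_right h4.le hlog2
    have h8 : 2 * Real.pi * c1 / Real.log (5 / 6 * T) * (1 + Real.log (2 * T)) < β * (2 * Real.pi) := by
      rw [div_mul_eq_mul_div, div_lt_iff₀ (by linarith)]
      have h9 := hT2 T ((le_max_right _ _).trans hT)
      have h10 : 2 * Real.pi * (c1 * (1 + Real.log (2 * T))) <
          2 * Real.pi * (β * Real.log (5 / 6 * T)) := mul_lt_mul_of_pos_left h9 (by positivity)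
      nlinarith
    unfold del
    rw [div_lt_iff₀ (by positivity)]
    linarith
  have hfin : {n : ℕ | 1 ≤ n ∧ T ≤ ord n ∧ ord n ≤ T + H ∧ del n < β}.Finite :=
    SP.PosProp.fin_ord (T + H) _ fun n hn => ⟨hn.1, hn.2.2.1⟩
  exact_mod_cast Set.ncard_le_ncard hsub hfin

/-- a positive proportion of gaps larger than `3.57` in every short interval -/
theorem large_short (hRH : RHs) :
    ∃ θ ε T1 : ℝ, θ < 1 ∧ 0 < ε ∧ ∀ T : ℝ, T1 ≤ T → ∀ H : ℝ, T ^ θ ≤ H → H ≤ T / 2 →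
      ε * (H * Real.log T) ≤
        ({n : ℕ | 1 ≤ n ∧ T ≤ ord n ∧ ord n ≤ T + H ∧ 357 / 100 < del n}.ncard : ℝ) := by
  obtain ⟨P, B0, r, F, q, h1, h2, h3, h4, h5⟩ := LG.PAR
  obtain ⟨η, ε, K, T0, hη, hε, hK, hT0, hloc⟩ := LG.LOCAL hRH P B0 h1 r h2 F q h3 (357 / 100)
    (by norm_num) h4 h5
  obtain ⟨ε', T1, hε', hT1, h⟩ := tile P.κ K ε T0 P.hκ P.hκ1 hK hε hT0
    (fun T n => 2 * Real.pi * (357 / 100 + η) / Real.log T < ord (n + 1) - ord n) hloc
  refine ⟨1 - P.κ / 4, ε', T1, by linarith [P.hκ], hε', fun T hT H hH1 hH2 => ?_⟩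
  have hT100 : 100 ≤ T := hT1.trans hT
  refine (h T hT H hH1 hH2).trans ?_
  have hsub : {n : ℕ | 1 ≤ n ∧ T ≤ ord n ∧ ord n ≤ T + H ∧
      2 * Real.pi * (357 / 100 + η) / Real.log (5 / 6 * T) < ord (n + 1) - ord n} ⊆
      {n : ℕ | 1 ≤ n ∧ T ≤ ord n ∧ ord n ≤ T + H ∧ 357 / 100 < del n} := by
    rintro n ⟨h1, h2, h3, h4⟩
    refine ⟨h1, h2, h3, ?_⟩
    have hpi := Real.pi_pos
    have hlog : 0 < Real.log (5 / 6 * T) := Real.log_pos (by linarith)
    have hlog2 : Real.log (5 / 6 * T) ≤ Real.log (ord n) :=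
      Real.log_le_log (by linarith) (by linarith)
    have hx0 : 0 < ord n := SG.ord_pos h1
    have hxy : ord n ≤ ord (n + 1) := SG.ord_mono h1 (Nat.le_succ n)
    have h5 := xlogx_low hx0 hxy
    have h6 : (ord (n + 1) - ord n) * Real.log (5 / 6 * T) ≤
        (ord (n + 1) - ord n) * Real.log (ord n) := mul_le_mul_of_nonneg_left hlog2 (by linarith)
    rw [div_lt_iff₀ hlog] at h4
    unfold del
    rw [lt_div_iff₀ (by positivity)]
    nlinarith
  have hfin : {n : ℕ | 1 ≤ n ∧ T ≤ ord n ∧ ord n ≤ T + H ∧ 357 / 100 < del n}.Finite :=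
    SP.PosProp.fin_ord (T + H) _ fun n hn => ⟨hn.1, hn.2.2.1⟩
  exact_mod_cast Set.ncard_le_ncard hsub hfin

end W197
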